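import Pool.Agent.H81.SQ.Main

/-!
# Multiplicative recurrence along `n ^ 2 + 1` for at most five colours

Every colouring of the positive integers with at most five colours has `x`, `y` of the same
colour with `x = (n ^ 2 + 1) * y`, `n` positive. The proof is a chain of thirteen finite
refutations (found by a computer search, checked by the kernel): the first twelve show that in a
colouring with five colours without such `x`, `y`, some further ratio would be avoided too on a
set of multiples, and the last one refutes all these together.
-/

set_option autoImplicit false

namespace Pool.Agent.Results.MP_bf2c3c_an.FiveColours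

open Pool.Agent.H81.SQ

/-- Every colouring `χ` of the positive integers with `r ≤ 5` colours has positive `x`, `y`, `n`
with `x = (n ^ 2 + 1) * y` and `χ x = χ y`. -/
theorem result (r : ℕ) (hr : r ≤ 5) (χ : ℕ → Fin r) :
    ∃ x y n : ℕ, 0 < x ∧ 0 < y ∧ 0 < n ∧ x = (n ^ 2 + 1) * y ∧ χ x = χ y := by
  by_contra hcon
  push Not at hcon
  refine no_five (χ := fun k => Fin.castLE hr (χ k)) fun n y hn hy h => ?_
  refine hcon ((n ^ 2 + 1) * y) y n (by positivity) hy hn rfl ?_
  have h1 := Fin.castLE_injective hr h
  rwa [← pow_two] at h1

end Pool.Agent.Results.MP_bf2c3c_an.FiveColours
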