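import Pool.Agent.H27.MR.Basic

/-!
# Multiplicative recurrence along `n ^ 2 + 1` for colourings which do not see squares

For every finite colouring of the positive integers there are `x`, `y` of the same colour with
`x = (n ^ 2 + 1) m ^ 2 y`. In particular, if the colouring does not change under multiplication
by perfect squares, then `y` and `(n ^ 2 + 1) y` have the same colour. One can take `n` as large
as one likes.
-/

namespace Pool.Agent.Results.MP_bf2c3c_an.SquareInvariant

/-- Every finite colouring of the positive integers has `x`, `y` of the same colour with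
`x = (n ^ 2 + 1) m ^ 2 y` and `n > N`; if the colouring is invariant under multiplication by
perfect squares, then `(n ^ 2 + 1) y` and `y` have the same colour. -/
theorem result (r : ℕ) (χ : ℕ → Fin r) (N : ℕ) :
    ∃ x y n m : ℕ, 0 < x ∧ 0 < y ∧ N < n ∧ 0 < m ∧ x = (n ^ 2 + 1) * m ^ 2 * y ∧ χ x = χ y ∧
      ((∀ k z : ℕ, 0 < k → 0 < z → χ (k ^ 2 * z) = χ z) → χ ((n ^ 2 + 1) * y) = χ y) := by
  obtain ⟨f, hf, hfr⟩ := H27.MR.clique N
  obtain ⟨i, j, hij, he⟩ := Finite.exists_ne_map_eq_of_infinite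
    (fun i : ℕ => χ ((f i).1 * (f i).2 ^ 2))
  wlog hlt : i < j generalizing i j
  · exact this j i hij.symm he.symm (lt_of_le_of_ne (not_lt.mp hlt) hij.symm)
  obtain ⟨n, m, hn, hm, hx⟩ := hfr i j hlt
  have hyi : 0 < (f i).1 * (f i).2 ^ 2 := Nat.mul_pos (hf i).1.pos (pow_pos (hf i).2.2.2 2)
  have hxj : 0 < (f j).1 * (f j).2 ^ 2 := Nat.mul_pos (hf j).1.pos (pow_pos (hf j).2.2.2 2)
  refine ⟨_, _, n, m, hxj, hyi, hn, hm, hx, he.symm, ?_⟩
  intro hinv
  have he' : χ ((f j).1 * (f j).2 ^ 2) = χ ((f i).1 * (f i).2 ^ 2) := he.symm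
  rw [← he', hx, ← hinv m _ hm (Nat.mul_pos (by positivity : 0 < n ^ 2 + 1) hyi)]
  congr 1
  ring

end Pool.Agent.Results.MP_bf2c3c_an.SquareInvariant
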